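import Mathlib
import Pool.Agent.MP_20bec2_an.T3.All
import Pool.Agent.MP_20bec2_an.T3.Comb

set_option autoImplicit false
open MeasureTheory Set

namespace Pool.Agent.Results.MP_20bec2_an.Full

/-- the unit cube in Euclidean space -/
def cube (d : ℕ) : Set (EuclideanSpace ℝ (Fin d)) := {x | ∀ i, x i ∈ Icc (0 : ℝ) 1}

/-- `g` is omega-continuous on `A` for omega(t) = t log(1/t) -/
def OmCont {d : ℕ} (A : Set (EuclideanSpace ℝ (Fin d)))
    (g : EuclideanSpace ℝ (Fin d) → EuclideanSpace ℝ (Fin d)) : Prop :=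
  ∃ C t₀ : ℝ, 0 < C ∧ 0 < t₀ ∧ ∀ x ∈ A, ∀ y ∈ A, ‖x - y‖ ≤ t₀ →
    ‖g x - g y‖ ≤ C * (‖x - y‖ * Real.log (1 / ‖x - y‖))

/-- For omega(t) = t log(1/t), a continuous positive density on the cube that is bi-omega
non-realisable exists exactly when the dimension is at least four. -/
theorem result (d : ℕ) (hd : 1 ≤ d) :
    (∃ ρ : EuclideanSpace ℝ (Fin d) → ℝ, ContinuousOn ρ (cube d) ∧ (∀ x ∈ cube d, 0 < ρ x) ∧
      ¬ ∃ f : EuclideanSpace ℝ (Fin d) → EuclideanSpace ℝ (Fin d), InjOn f (cube d) ∧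
        OmCont (cube d) f ∧ OmCont (f '' cube d) (Function.invFunOn f (cube d)) ∧
        ∀ B, MeasurableSet B →
          ∫⁻ x in cube d ∩ f ⁻¹' B, ENNReal.ofReal (ρ x) = volume (B ∩ f '' cube d)) ↔ 4 ≤ d :=
  Pool.Agent.MP_20bec2_an.T3.comb Pool.Agent.MP_20bec2_an.T3.main_all d hd

end Pool.Agent.Results.MP_20bec2_an.Full
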