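import Mathlib
import Pool.Agent.MP_20bec2_an.b2.Final

set_option autoImplicit false
open MeasureTheory Set

namespace Pool.Agent.Results.MP_20bec2_an.NonRealFour

/-- the unit cube in Euclidean space -/
def cube (d : ℕ) : Set (EuclideanSpace ℝ (Fin d)) := {x | ∀ i, x i ∈ Icc (0 : ℝ) 1}

/-- `g` is omega-continuous on `A` for omega(t) = t log(1/t)^alpha -/
def OmCont {d : ℕ} (α : ℝ) (A : Set (EuclideanSpace ℝ (Fin d)))
    (g : EuclideanSpace ℝ (Fin d) → EuclideanSpace ℝ (Fin d)) : Prop :=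
  ∃ C t₀ : ℝ, 0 < C ∧ 0 < t₀ ∧ ∀ x ∈ A, ∀ y ∈ A, ‖x - y‖ ≤ t₀ →
    ‖g x - g y‖ ≤ C * (‖x - y‖ * Real.log (1 / ‖x - y‖) ^ α)

/-- For d at least 3 and alpha < 11(d-1)/(8d) some continuous positive density on the cube is
bi-omega non-realisable for omega(t) = t log(1/t)^alpha; alpha = 1 is allowed when d is at
least 4. -/
theorem result (d : ℕ) (hd : 3 ≤ d) (α : ℝ) (hα : α < 11 * (d - 1) / (8 * d)) :
    ∃ ρ : EuclideanSpace ℝ (Fin d) → ℝ, ContinuousOn ρ (cube d) ∧ (∀ x ∈ cube d, 0 < ρ x) ∧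
      ¬ ∃ f : EuclideanSpace ℝ (Fin d) → EuclideanSpace ℝ (Fin d), InjOn f (cube d) ∧
        OmCont α (cube d) f ∧ OmCont α (f '' cube d) (Function.invFunOn f (cube d)) ∧
        ∀ B, MeasurableSet B →
          ∫⁻ x in cube d ∩ f ⁻¹' B, ENNReal.ofReal (ρ x) = volume (B ∩ f '' cube d) :=
  Pool.Agent.MP_20bec2_an.b2.final2 d hd α hα

end Pool.Agent.Results.MP_20bec2_an.NonRealFour
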