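import Mathlib
import Pool.Agent.MP_20bec2_an.Pl.All

set_option autoImplicit false
open MeasureTheory Set

namespace Pool.Agent.Results.MP_20bec2_an.Plane

/-- the unit square in the Euclidean plane -/
def square : Set (EuclideanSpace ℝ (Fin 2)) := {x | ∀ i, x i ∈ Icc (0 : ℝ) 1}

/-- Every continuous positive density on the square is bi-omega realisable for
omega(t) = t log(1/t)^beta, for every beta > 3/4, in particular for beta = 1. -/
theorem result (β : ℝ) (hβ : 3 / 4 < β) (ρ : EuclideanSpace ℝ (Fin 2) → ℝ)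
    (hρ : ContinuousOn ρ square) (hpos : ∀ x ∈ square, 0 < ρ x) :
    ∃ f : EuclideanSpace ℝ (Fin 2) → EuclideanSpace ℝ (Fin 2), InjOn f square ∧
      (∃ C t₀ : ℝ, 0 < C ∧ 0 < t₀ ∧ t₀ < 1 ∧ ∀ x ∈ square, ∀ y ∈ square,
        (‖x - y‖ ≤ t₀ → ‖f x - f y‖ ≤ C * (‖x - y‖ * Real.log (1 / ‖x - y‖) ^ β)) ∧
        (‖f x - f y‖ ≤ t₀ → ‖x - y‖ ≤ C * (‖f x - f y‖ * Real.log (1 / ‖f x - f y‖) ^ β))) ∧
      ∀ B, MeasurableSet B →
        ∫⁻ x in square ∩ f ⁻¹' B, ENNReal.ofReal (ρ x) = volume (B ∩ f '' square) :=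
  Pool.Agent.MP_20bec2_an.Pl.main_all β hβ square rfl ρ hρ hpos

end Pool.Agent.Results.MP_20bec2_an.Plane
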